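import Mathlib
import Pool.Agent.Y347.CO.Stm

/-! # Project CO: affine families that are not good (helper433) -/

set_option autoImplicit false

namespace Pool.Agent.Y433.CO.Affg

open Finset Pool.Agent.Y347.CO

section

variable {X : Type} [Fintype X] [DecidableEq X]

/-- indicator vector -/
def iv (A : Finset X) : X → ZMod 2 := fun x => if x ∈ A then 1 else 0

theorem iv_inj {A B : Finset X} (h : iv A = iv B) : A = B := by
  ext x
  have := congrFun h x
  unfold iv at this
  by_cases h1 : x ∈ A <;> by_cases h2 : x ∈ B <;> simp_all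

theorem iv_symm (A B : Finset X) : iv (symmDiff A B) = iv A + iv B := by
  funext x
  rw [Pi.add_apply]
  unfold iv
  by_cases h1 : x ∈ A <;> by_cases h2 : x ∈ B <;> simp [mem_symmDiff, h1, h2]
  · decide

theorem add_self' (v : X → ZMod 2) : v + v = 0 := by
  funext x
  exact CharTwo.add_self_eq_zero _

/-- the direction space -/
def WW (S : Finset (Finset X)) (A0 : Finset X) (h0 : A0 ∈ S)
    (hS : ∀ A ∈ S, ∀ B ∈ S, ∀ C ∈ S, symmDiff A (symmDiff B C) ∈ S) :
    Submodule (ZMod 2) (X → ZMod 2) where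
  carrier := {w | ∃ A ∈ S, w = iv A + iv A0}
  add_mem' := by
    rintro _ _ ⟨A, hA, rfl⟩ ⟨B, hB, rfl⟩
    refine ⟨symmDiff A (symmDiff B A0), hS A hA B hB A0 h0, ?_⟩
    rw [iv_symm, iv_symm]
    abel
  zero_mem' := ⟨A0, h0, (add_self' _).symm⟩
  smul_mem' := by
    rintro c _ ⟨A, hA, rfl⟩
    have hc : c = 0 ∨ c = 1 := by
      fin_cases c
      · left; rfl
      · right; rfl
    rcases hc with rfl | rfl
    · rw [zero_smul]
      exact ⟨A0, h0, (add_self' _).symm⟩
    · rw [one_smul]
      exact ⟨A, hA, rfl⟩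

theorem mem_WW {S : Finset (Finset X)} {A0 : Finset X} {h0 : A0 ∈ S}
    {hS : ∀ A ∈ S, ∀ B ∈ S, ∀ C ∈ S, symmDiff A (symmDiff B C) ∈ S} {w : X → ZMod 2} :
    w ∈ WW S A0 h0 hS ↔ ∃ A ∈ S, w = iv A + iv A0 := Iff.rfl

theorem card_WW (S : Finset (Finset X)) (A0 : Finset X) (h0 : A0 ∈ S)
    (hS : ∀ A ∈ S, ∀ B ∈ S, ∀ C ∈ S, symmDiff A (symmDiff B C) ∈ S) :
    S.card = 2 ^ Module.finrank (ZMod 2) (WW S A0 h0 hS) := by
  classical
  have h1 : Nat.card (WW S A0 h0 hS) = 2 ^ Module.finrank (ZMod 2) (WW S A0 h0 hS) := by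
    rw [Module.natCard_eq_pow_finrank (K := ZMod 2), Nat.card_zmod]
  rw [← h1]
  have h2 : S.card = Nat.card S := by
    rw [Nat.card_eq_fintype_card, Fintype.card_coe]
  rw [h2]
  refine Nat.card_congr (Equiv.ofBijective
    (fun A : S => (⟨iv A.1 + iv A0, A.1, A.2, rfl⟩ : WW S A0 h0 hS)) ⟨?_, ?_⟩)
  · intro A B h
    have h3 := congrArg Subtype.val h
    simp only at h3
    exact Subtype.ext (iv_inj (add_right_cancel h3))
  · rintro ⟨w, A, hA, rfl⟩
    exact ⟨⟨A, hA⟩, rfl⟩

/-- the vectors supported in `P` -/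
def supp (P : Finset X) : Submodule (ZMod 2) (X → ZMod 2) where
  carrier := {v | ∀ x, x ∉ P → v x = 0}
  add_mem' := by
    intro a b ha hb x hx
    rw [Pi.add_apply, ha x hx, hb x hx, add_zero]
  zero_mem' := fun _ _ => rfl
  smul_mem' := by
    intro c a ha x hx
    rw [Pi.smul_apply, ha x hx, smul_zero]

theorem exists_pts (W : Submodule (ZMod 2) (X → ZMod 2)) :
    ∃ P : Finset X, P.card ≤ Module.finrank (ZMod 2) ((X → ZMod 2) ⧸ W) ∧
      (supp P).map W.mkQ = ⊤ := by
  classical
  set t : Set ((X → ZMod 2) ⧸ W) := Set.range (fun x : X => W.mkQ (Pi.single x 1)) with ht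
  obtain ⟨b, hbt, hspan, hli⟩ := exists_linearIndependent (ZMod 2) t
  have hbf : b.Finite := Set.Finite.subset (Set.finite_range _) hbt
  have htop : Submodule.span (ZMod 2) t = ⊤ := by
    rw [eq_top_iff]
    intro q _
    obtain ⟨v, rfl⟩ := W.mkQ_surjective q
    have hv : v = ∑ x, v x • (Pi.single x 1 : X → ZMod 2) := by
      funext y
      rw [Finset.sum_apply]
      simp [Pi.single_apply]
    rw [hv, map_sum]
    refine Submodule.sum_mem _ fun x _ => ?_
    rw [map_smul]
    exact Submodule.smul_mem _ _ (Submodule.subset_span ⟨x, rfl⟩)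
  have hch : ∀ q : b, ∃ x : X, W.mkQ (Pi.single x 1) = q.1 := fun q => hbt q.2
  choose f hf using hch
  haveI : Fintype b := hbf.fintype
  refine ⟨Finset.univ.image f, ?_, ?_⟩
  · refine Finset.card_image_le.trans ?_
    rw [Finset.card_univ]
    exact hli.fintype_card_le_finrank
  · rw [eq_top_iff, ← htop, ← hspan, Submodule.span_le]
    intro q hq
    refine ⟨Pi.single (f ⟨q, hq⟩) 1, ?_, hf ⟨q, hq⟩⟩
    intro x hx
    have : x ≠ f ⟨q, hq⟩ := by
      rintro rfl
      exact hx (Finset.mem_image_of_mem _ (Finset.mem_univ _))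
    rw [Pi.single_eq_of_ne this]

end

theorem key (d N : ℕ) (hd : 1 ≤ d) (W : Submodule (ZMod 2) ((Fin d → Fin N) → ZMod 2))
    (hN : (d + 1) * Module.finrank (ZMod 2) (((Fin d → Fin N) → ZMod 2) ⧸ W) < N) :
    ∃ γ : Finset (Fin N), γ.Nonempty ∧
      iv (Fintype.piFinset (fun _ : Fin d => γ)) ∈ W ∧
      ∀ v : (Fin d → Fin N) → ZMod 2, ∃ w ∈ W,
        ∀ x ∈ Fintype.piFinset (fun _ : Fin d => γ), w x = v x := by
  classical
  obtain ⟨P, hP, hPt⟩ := exists_pts W
  set m := Module.finrank (ZMod 2) (((Fin d → Fin N) → ZMod 2) ⧸ W) with hm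
  set z : Fin d := ⟨0, hd⟩ with hz
  set H : Finset (Fin N) := P.image (fun x => x z) with hH
  have hHc : H.card ≤ m := Finset.card_image_le.trans hP
  set bs := Module.finBasis (ZMod 2) (((Fin d → Fin N) → ZMod 2) ⧸ W) with hbs
  set c : Fin m → (Fin d → Fin N) → ZMod 2 := fun j x => bs.repr (W.mkQ (Pi.single x 1)) j with hc
  set F : Fin m ⊕ {i // i ∈ H} → MvPolynomial (Fin N) (ZMod 2) := fun s => match s with
    | Sum.inl j => ∑ x : Fin d → Fin N, MvPolynomial.C (c j x) * ∏ k : Fin d, MvPolynomial.X (x k)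
    | Sum.inr i => MvPolynomial.X i.1 with hF
  have hdeg : ∑ s, (F s).totalDegree < Fintype.card (Fin N) := by
    rw [Fintype.sum_sum_type, Fintype.card_fin]
    have h1 : ∀ j : Fin m, (F (Sum.inl j)).totalDegree ≤ d := by
      intro j
      refine MvPolynomial.totalDegree_finsetSum_le fun x _ => ?_
      refine (MvPolynomial.totalDegree_mul _ _).trans ?_
      rw [MvPolynomial.totalDegree_C, zero_add]
      refine (MvPolynomial.totalDegree_finset_prod _ _).trans ?_
      refine (Finset.sum_le_card_nsmul _ _ 1 fun k _ => ?_).trans ?_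
      · rw [MvPolynomial.totalDegree_X]
      · rw [Finset.card_univ, Fintype.card_fin, smul_eq_mul, mul_one]
    have h2 : ∀ i : {i // i ∈ H}, (F (Sum.inr i)).totalDegree ≤ 1 := by
      intro i
      exact (MvPolynomial.totalDegree_X _).le
    calc ∑ j, (F (Sum.inl j)).totalDegree + ∑ i, (F (Sum.inr i)).totalDegree
        ≤ ∑ j : Fin m, d + ∑ i : {i // i ∈ H}, 1 :=
          Nat.add_le_add (Finset.sum_le_sum fun j _ => h1 j) (Finset.sum_le_sum fun i _ => h2 i)
      _ = m * d + H.card := by simp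
      _ ≤ (d + 1) * m := by nlinarith
      _ < N := hN
  have hdvd := char_dvd_card_solutions_of_fintype_sum_lt 2 hdeg
  have hev : ∀ (t : Fin N → ZMod 2) (j : Fin m), MvPolynomial.eval t (F (Sum.inl j)) =
      ∑ x : Fin d → Fin N, c j x * ∏ k : Fin d, t (x k) := by
    intro t j
    show MvPolynomial.eval t (∑ x : Fin d → Fin N, MvPolynomial.C (c j x) *
      ∏ k : Fin d, MvPolynomial.X (x k)) = _
    rw [map_sum]
    refine Finset.sum_congr rfl fun x _ => ?_
    rw [map_mul, map_prod, MvPolynomial.eval_C]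
    simp only [MvPolynomial.eval_X]
  have hev2 : ∀ (t : Fin N → ZMod 2) (i : {i // i ∈ H}),
      MvPolynomial.eval t (F (Sum.inr i)) = t i.1 := fun t i => MvPolynomial.eval_X _
  have h0 : ∀ s, MvPolynomial.eval (0 : Fin N → ZMod 2) (F s) = 0 := by
    rintro (j | i)
    · rw [hev]
      refine Finset.sum_eq_zero fun x _ => ?_
      rw [Finset.prod_eq_zero (Finset.mem_univ z) rfl, mul_zero]
    · rw [hev2]; rfl
  obtain ⟨t, ht, ht0⟩ : ∃ t : Fin N → ZMod 2, (∀ s, MvPolynomial.eval t (F s) = 0) ∧ t ≠ 0 := by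
    by_contra hcon
    push Not at hcon
    have hcard : Fintype.card {x : Fin N → ZMod 2 // ∀ s, MvPolynomial.eval x (F s) = 0} = 1 := by
      rw [Fintype.card_eq_one_iff]
      exact ⟨⟨0, h0⟩, fun y => Subtype.ext (hcon y.1 y.2)⟩
    rw [hcard] at hdvd
    omega
  set γ : Finset (Fin N) := Finset.univ.filter (fun i => t i ≠ 0) with hγ
  have hz2 : ∀ a : ZMod 2, a ≠ 0 → a = 1 := by decide
  have hprod : ∀ x : Fin d → Fin N, ∏ k : Fin d, t (x k) =
      iv (Fintype.piFinset (fun _ : Fin d => γ)) x := by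
    intro x
    unfold iv
    by_cases hx : x ∈ Fintype.piFinset (fun _ : Fin d => γ)
    · rw [if_pos hx]
      rw [Fintype.mem_piFinset] at hx
      refine Finset.prod_eq_one fun k _ => ?_
      have := hx k
      rw [hγ, Finset.mem_filter] at this
      exact hz2 _ this.2
    · rw [if_neg hx]
      rw [Fintype.mem_piFinset] at hx
      push Not at hx
      obtain ⟨k, hk⟩ := hx
      rw [hγ, Finset.mem_filter] at hk
      push Not at hk
      exact Finset.prod_eq_zero (Finset.mem_univ k) (hk (Finset.mem_univ _))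
  refine ⟨γ, ?_, ?_, ?_⟩
  · obtain ⟨i, hi⟩ := Function.ne_iff.1 ht0
    exact ⟨i, Finset.mem_filter.2 ⟨Finset.mem_univ _, hi⟩⟩
  · rw [← Submodule.Quotient.mk_eq_zero, ← Submodule.mkQ_apply]
    apply bs.repr.injective
    rw [map_zero]
    ext j
    have h1 := ht (Sum.inl j)
    rw [hev] at h1
    simp only [hprod] at h1
    have hv : iv (Fintype.piFinset (fun _ : Fin d => γ)) =
        ∑ x, iv (Fintype.piFinset (fun _ : Fin d => γ)) x •
          (Pi.single x 1 : (Fin d → Fin N) → ZMod 2) := by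
      funext y
      rw [Finset.sum_apply]
      simp [Pi.single_apply]
    rw [hv, map_sum, map_sum, Finsupp.finset_sum_apply]
    rw [Finsupp.zero_apply, ← h1]
    refine Finset.sum_congr rfl fun x _ => ?_
    rw [map_smul, map_smul, Finsupp.smul_apply, smul_eq_mul, mul_comm]
  · intro v
    have hmem : W.mkQ v ∈ (supp P).map W.mkQ := by rw [hPt]; exact Submodule.mem_top
    obtain ⟨u, hu, huv⟩ := hmem
    refine ⟨v - u, ?_, ?_⟩
    · rw [← Submodule.Quotient.mk_eq_zero, ← Submodule.mkQ_apply, map_sub, huv, sub_self]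
    · intro x hx
      have hxP : x ∉ P := by
        intro hxP
        have h1 : x z ∈ H := Finset.mem_image_of_mem _ hxP
        have h2 := ht (Sum.inr ⟨x z, h1⟩)
        rw [hev2] at h2
        rw [Fintype.mem_piFinset] at hx
        have h3 := hx z
        rw [hγ, Finset.mem_filter] at h3
        exact h3.2 h2
      rw [Pi.sub_apply, hu x hxP, sub_zero]

/-- **CO-AFFG**. -/
theorem done : S_AFFG := by
  classical
  intro d N S hd hS hgood
  rcases S.eq_empty_or_nonempty with rfl | ⟨A0, h0⟩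
  · simp
  set W := WW S A0 h0 hS with hW
  have hcard := card_WW S A0 h0 hS
  rw [← hW] at hcard
  have hdim : Module.finrank (ZMod 2) (((Fin d → Fin N) → ZMod 2) ⧸ W) +
      Module.finrank (ZMod 2) W = N ^ d := by
    rw [Submodule.finrank_quotient_add_finrank, Module.finrank_fintype_fun_eq_card]
    simp
  by_cases hN : (d + 1) * Module.finrank (ZMod 2) (((Fin d → Fin N) → ZMod 2) ⧸ W) < N
  · exfalso
    apply hgood
    obtain ⟨γ, hγ, h1, h2⟩ := key d N hd W hN
    obtain ⟨B, hB, hBe⟩ := h1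
    obtain ⟨w, ⟨A, hA, rfl⟩, hw⟩ := h2 (iv A0)
    have hdis : Disjoint A (Fintype.piFinset (fun _ : Fin d => γ)) := by
      rw [Finset.disjoint_right]
      intro x hx hxA
      have h3 := hw x hx
      rw [Pi.add_apply] at h3
      have h4 : iv A x = 0 := by
        have : iv A x + iv A0 x = 0 + iv A0 x := by rw [h3, zero_add]
        exact add_right_cancel this
      unfold iv at h4
      rw [if_pos hxA] at h4
      exact one_ne_zero h4
    refine ⟨A, hA, γ, hγ, hdis, ?_⟩
    have h5 : A ∪ Fintype.piFinset (fun _ : Fin d => γ) = symmDiff A (symmDiff B A0) := by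
      apply iv_inj
      rw [iv_symm, iv_symm, ← hBe, ← iv_symm]
      congr 1
      exact ((Finset.symmDiff_eq_union_iff _ _).2 hdis).symm
    rw [h5]
    exact hS A hA B hB A0 h0
  · push Not at hN
    rw [hcard, ← pow_mul, ← pow_add, ← pow_mul]
    apply Nat.pow_le_pow_right (by norm_num)
    rw [← hdim]
    nlinarith

end Pool.Agent.Y433.CO.Affg
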